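import Pool.Agent.H.MP_8be301_an.CX.FinN

/-!
# Crossed products by arbitrary groups

`VA D`: the monoid of Murray-von Neumann classes of projections of matrix algebras over `D`; `W D`: the sums of
classes of projections of `D`; `Le x y`: `x + z = y` for some `z`; `c1 q`, `cW q`: the class of the projection `q` as an
element of `VA D`, of `W D`.

`rho α`: the action of `Γ` on `W D`; `(rho α).res N`: the action of the subgroup `N`; `LeM σ x y`: `x` is a sum of elements
`z i` such that the sum of the `g i • z i` is below `y` for some elements `g i` of the acting group (the preorder of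
the type monoid of the action `σ`). For `N = ⊥` this is `Le x y`.

`OCw D`: if projections `q i`, `q' k` below a projection `p` of `D` satisfy `∑ q' k + δ p ≤ ∑ q i` with `δ > 0` then
`M ∑ [q' k] ≤ M ∑ [q i]` in `VA D` for some `M > 0`. Together with the order of `W D` being almost unperforated
this holds for AF algebras (`reg_af` in CX/Reg), and `OCw` holds for all exact algebras of real rank zero
(Haagerup: quasitraces are traces).

`Cp Γ D B`: `B` is the reduced crossed product of `D` by an action `α` of the discrete group `Γ`: it is densely
spanned by `ι d * u g` with a unital star homomorphism `ι : D → B` and unitaries `u g` that implement the action,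
and has a faithful contractive positive conditional expectation `E` onto `D` that kills `ι d * u g` for `g ≠ 1`.

`Corner X p A`: `A` is the corner `p B p`, `p` a projection of `D` (`p = 1` for `B` itself; with the unitization
of a non-unital algebra `D₀` as `D` all corners `p (D₀ ⋊ Γ) p` are covered).

`Outer α p`: for `g ≠ 1`, `d` in `D` and every nonzero projection `q ≤ p` there are nonzero projections `r ≤ q`
with `‖r d α_g(r)‖` small: the action is properly outer on `p D p`.

`halving`: every projection `q ≤ r` contains, up to the action of `N`, two copies of a projection `t` such that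
`[q] ≤ m [t]` for some `m`. For `N = ⊥` this holds if `r D r` is simple and has no minimal projections (`dichS` in
CX/FinX). `tyN` in CX/FinN: under these hypotheses the preorder of the type monoid of `Γ` is almost unperforated.
-/

set_option autoImplicit false

namespace Pool.Agent.Results.MP_8be301_an.ArbitraryGroups

open Pool.Agent.H.MP_8be301_an.CX Pool.Agent.H.MP_8be301_an.DP Pool.Agent.H.MP_8be301_an.RD

/-- Let `N` be a normal subgroup of the arbitrary discrete group `Γ` (for example `N = 1`) that acts
on the regular algebra `D` of real rank zero, such that the type monoid of `N` is almost unperforated and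
the projections below some nonzero projection `r ≤ p` can be halved up to `N` and a multiple. If the action of
`Γ` is properly outer and the corner `A = p (D ⋊ Γ) p` of the reduced crossed product is simple then `A` is
stably finite with a tracial state or purely infinite. -/
theorem result {Γ D B A : Type*} [Group Γ] [CStarAlgebra D] [CStarAlgebra B]
    [CStarAlgebra A] (X : Cp Γ D B)
    (realRankZero : ∀ x : D, IsSelfAdjoint x → ∀ ε : ℝ, 0 < ε →
      ∃ y : D, IsSelfAdjoint y ∧ (quasispectrum ℂ y).Finite ∧ ‖x - y‖ < ε)
    (almostUnperforated : ∀ (n : ℕ) (x y : W D), Le ((n + 1) • x) (n • y) → Le x y)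
    (order : OCw D) (N : Subgroup Γ) (normal : N.Normal)
    (almostUnperforatedN : ∀ (n : ℕ) (x y : W D),
      LeM ((rho X.α).res N) ((n + 1) • x) (n • y) → LeM ((rho X.α).res N) x y)
    (p : D) (projection : p * p = p ∧ star p = p) (outer : Outer X.α p) (corner : Corner X p A)
    (simple : ∀ I : TwoSidedIdeal A, IsClosed (I : Set A) → I = ⊥ ∨ I = ⊤)
    (r : D) (small : r * r = r ∧ star r = r) (below : p * r = r) (nonzero : r ≠ 0)
    (halving : ∀ (q : D) (hq : q * q = q ∧ star q = q), r * q = q →
      ∃ (t : D) (ht : t * t = t ∧ star t = t) (m : ℕ),
        LeM ((rho X.α).res N) (2 • cW t ht) (cW q hq) ∧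
        LeM ((rho X.α).res N) (cW q hq) (m • cW t ht)) :
    ((∃ τ : A →ₗ[ℂ] ℂ, τ 1 = 1 ∧ (∀ x, ∃ s : ℝ, 0 ≤ s ∧ τ (star x * x) = s) ∧
          ∀ x y, τ (x * y) = τ (y * x)) ∧
        ∀ (n : ℕ) (v : Matrix (Fin n) (Fin n) (Unitization ℂ A)),
          star v * v = 1 → v * star v = 1) ∨
      (∀ a : A, a ≠ 0 → (∃ y : A, a = star y * y) →
        ∃ p ∈ closure {x : A | ∃ z : A, x = a * z * a},
          p * p = p ∧ star p = p ∧
          ∃ v : A, star v * v = p ∧ v * star v * p = v * star v ∧ v * star v ≠ p) :=
  dichN X ⟨realRankZero, almostUnperforated, order⟩ normal almostUnperforatedN projection outer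
    corner simple small below nonzero (hlvN_of_halvN small halving)

end Pool.Agent.Results.MP_8be301_an.ArbitraryGroups
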