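import Pool.Agent.H.MP_8be301_an.KT.Fin

/-!
# Crossed products of algebras with an invariant subalgebra of large relative commutant

`VA D`: the monoid of Murray-von Neumann classes of projections of matrix algebras over `D`; `W D`: the sums of
classes of projections of `D`; `Le x y`: `x + z = y` for some `z`; `c1 q`, `cW q`: the class of the projection `q` as an
element of `VA D`, of `W D`; `Pj q`: `q` is a projection.

`rho α`: the action of `Γ` on `W D`; `LeM (rho α) x y`: `x` is a sum of elements `z i` such that the sum of the
`g i • z i` is below `y` for some elements `g i` of `Γ` (the preorder of the type monoid).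

`OCw B`: if projections `q i`, `q' k` below a projection `p` of `B` satisfy `∑ q' k + δ p ≤ ∑ q i` with `δ > 0` then
`M ∑ [q' k] ≤ M ∑ [q i]` in `VA B` for some `M > 0`. This holds for all exact algebras (Haagerup: quasitraces are
traces).

`Cp Γ D A`: `A` is the reduced crossed product of `D` by an action `α` of the discrete group `Γ`: it is densely
spanned by `ι d * u g` with a unital star homomorphism `ι : D → A` and unitaries `u g` that implement the action,
and has a faithful contractive positive conditional expectation `E` onto `D` that kills `ι d * u g` for `g ≠ 1`.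

`Outer α 1`: for `g ≠ 1`, `d` in `D` and every nonzero projection `q` there are nonzero projections `r ≤ q` with
`‖r d α_g(r)‖` small: the action is properly outer.

`InvTr β τ`: `τ` is a tracial state which is invariant under the action `β`.

`Mov β α i c s`: `s` is a projection of the relative commutant of `i B`, and for every `g` the projection `α g s` is
dominated in this relative commutant by `c` translates of `s` under elements that act trivially on `B`: `α g s` is a
sum of `star (w j) * w j`, `j < c`, with `w j` in the relative commutant and `α (h j) s * w j = w j`, `β (h j) = 1`. For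
example `c = 1` and `h = 1` if `α g s` and `s` are equivalent in the relative commutant.

`Sml β α i`: every nonzero projection `e` of `D` has a projection `q` of `B` and a number `c` such that for every `m`
there is `s` as in `Mov β α i c s` with `i q * s ≠ 0` and `m [i q * s] ≤ [e]` in the type monoid.

If `D` is the minimal tensor product of `B` and a simple non-elementary algebra `C` of real rank zero, with the
product of `β` and an action `γ` on `C`, then `Sml` holds if `γ` is trivial on the classes of projections of `C`, or if
there is `c` such that `C` has arbitrarily small projections `s` with `[γ g s] ≤ c [s]` for all `g`: `e` contains a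
projection equivalent to some `q ⊗ r` (Kirchberg's slice lemma), and `m [s] ≤ [r]` for a suitable `s`. Every
invariant tracial state of `B` extends to `D` if `C` has an invariant tracial state.
-/

set_option autoImplicit false

namespace Pool.Agent.Results.MP_8be301_an.RelativeCommutants

open Pool.Agent.H.MP_8be301_an.CX Pool.Agent.H.MP_8be301_an.DP Pool.Agent.H.MP_8be301_an.RD
  Pool.Agent.H.MP_8be301_an.KT

/-- Let `Γ` be an arbitrary discrete group that acts on the algebra `D` of real rank zero, and `i : B → D` an
equivariant unital star homomorphism of an algebra `B` of real rank zero whose quasitraces are traces (`OCw`) and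
which has no invariant closed ideals, such that the relative commutant of `i B` is large (`Sml`) and `D` has an
invariant tracial state if `B` has one. If the action on `D` is properly outer and the reduced crossed
product `A` is simple then `A` is stably finite with a tracial state or purely infinite. -/
theorem result {Γ B D A : Type*} [Group Γ] [CStarAlgebra B] [CStarAlgebra D] [CStarAlgebra A]
    (X : Cp Γ D A)
    (realRankZero : ∀ x : D, IsSelfAdjoint x → ∀ ε : ℝ, 0 < ε →
      ∃ y : D, IsSelfAdjoint y ∧ (quasispectrum ℂ y).Finite ∧ ‖x - y‖ < ε)
    (realRankZeroB : ∀ x : B, IsSelfAdjoint x → ∀ ε : ℝ, 0 < ε →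
      ∃ y : B, IsSelfAdjoint y ∧ (quasispectrum ℂ y).Finite ∧ ‖x - y‖ < ε)
    (order : OCw B) (β : Γ →* (B ≃⋆ₐ[ℂ] B))
    (noInvariantIdeals : ∀ I : TwoSidedIdeal B, IsClosed (I : Set B) →
      (∀ g, ∀ x ∈ I, β g x ∈ I) → I = ⊥ ∨ I = ⊤)
    (i : B →⋆ₐ[ℂ] D) (equivariant : ∀ g b, i (β g b) = X.α g (i b))
    (large : Sml β X.α i)
    (traces : (∃ τ : B →L[ℂ] ℂ, InvTr β τ) → ∃ τ : D →L[ℂ] ℂ, InvTr X.α τ)
    (outer : Outer X.α 1)
    (simple : ∀ I : TwoSidedIdeal A, IsClosed (I : Set A) → I = ⊥ ∨ I = ⊤) :
    ((∃ τ : A →ₗ[ℂ] ℂ, τ 1 = 1 ∧ (∀ x, ∃ s : ℝ, 0 ≤ s ∧ τ (star x * x) = s) ∧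
          ∀ x y, τ (x * y) = τ (y * x)) ∧
        ∀ (n : ℕ) (v : Matrix (Fin n) (Fin n) (Unitization ℂ A)),
          star v * v = 1 → v * star v = 1) ∨
      (∀ a : A, a ≠ 0 → (∃ y : A, a = star y * y) →
        ∃ p ∈ closure {x : A | ∃ z : A, x = a * z * a},
          p * p = p ∧ star p = p ∧
          ∃ v : A, star v * v = p ∧ v * star v * p = v * star v ∧ v * star v ≠ p) :=
  dichK X realRankZero realRankZeroB order β noInvariantIdeals i equivariant large traces outer
    simple

end Pool.Agent.Results.MP_8be301_an.RelativeCommutants
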