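import Pool.Agent.H.MP_8be301_an.CX.FinG

/-!
# Crossed products of regular algebras of real rank zero and subexponential growth

`VA D`: the monoid of Murray-von Neumann classes of projections of matrix algebras over `D`; `W D`: the sums of
classes of projections of `D`; `Le x y`: `x + z = y` for some `z`; `c1 q`: the class of the projection `q`.

`OCw D`: if projections `q i`, `q' k` below a projection `p` of `D` satisfy `∑ q' k + δ p ≤ ∑ q i` with `δ > 0` then
`N ∑ [q' k] ≤ N ∑ [q i]` in `VA D` for some `N > 0`. Together with the order of `W D` being almost unperforated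
this holds for AF algebras (`reg_af` in CX/Reg), and `OCw` holds for all exact algebras of real rank zero
(Haagerup: quasitraces are traces).

`SubExp Δ`: for every finite subset `S` of `Δ` and `c > 1`, `card (S ^ n) ≤ c ^ n` for all large `n`.

`Cp Γ D B`: `B` is the reduced crossed product of `D` by an action `α` of the discrete group `Γ`: it is densely
spanned by `ι d * u g` with a unital star homomorphism `ι : D → B` and unitaries `u g` that implement the action,
and has a faithful contractive positive conditional expectation `E` onto `D` that kills `ι d * u g` for `g ≠ 1`.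

`Corner X p A`: `A` is the corner `p B p`, `p` a projection of `D` (`p = 1` for `B` itself; with the unitization
of a non-unital algebra `D₀` as `D` all corners `p (D₀ ⋊ Γ) p` are covered).

`Outer α p`: for `g ≠ 1`, `d` in `D` and every nonzero projection `q ≤ p` there are nonzero projections `r ≤ q`
with `‖r d α_g(r)‖` small: the action is properly outer on `p D p`.

`Mvn p q`: Murray-von Neumann equivalence. The hypothesis on `π : Γ → Δ`: the group `Γ`, of arbitrary growth,
acts on the classes of projections of `D` through `π`. The case `π = id` is that of a group `Γ` of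
subexponential growth. CX/FinG (`af_comm`) contains the case of AF algebras and abelian groups.
-/

set_option autoImplicit false

namespace Pool.Agent.Results.MP_8be301_an.SubexponentialCrossedProducts

open Pool.Agent.H.MP_8be301_an.CX Pool.Agent.H.MP_8be301_an.DP Pool.Agent.H.MP_8be301_an.RD

/-- Every simple corner `p (D ⋊ Γ) p` of the reduced crossed product of a regular algebra `D` of real
rank zero (for example an AF algebra) by a properly outer action of a group `Γ` that acts on the
classes of projections of `D` through a group of subexponential growth is stably finite with a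
tracial state or purely infinite. -/
theorem result {Γ Δ D B A : Type*} [Group Γ] [Group Δ] [CStarAlgebra D] [CStarAlgebra B]
    [CStarAlgebra A] (X : Cp Γ D B)
    (realRankZero : ∀ x : D, IsSelfAdjoint x → ∀ ε : ℝ, 0 < ε →
      ∃ y : D, IsSelfAdjoint y ∧ (quasispectrum ℂ y).Finite ∧ ‖x - y‖ < ε)
    (almostUnperforated : ∀ (n : ℕ) (x y : W D), Le ((n + 1) • x) (n • y) → Le x y)
    (order : OCw D) (π : Γ →* Δ) (growth : SubExp Δ)
    (classes : ∀ g, π g = 1 → ∀ q : D, q * q = q ∧ star q = q → Mvn (X.α g q) q)
    (p : D) (projection : p * p = p ∧ star p = p) (outer : Outer X.α p) (corner : Corner X p A)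
    (simple : ∀ I : TwoSidedIdeal A, IsClosed (I : Set A) → I = ⊥ ∨ I = ⊤) :
    ((∃ τ : A →ₗ[ℂ] ℂ, τ 1 = 1 ∧ (∀ x, ∃ t : ℝ, 0 ≤ t ∧ τ (star x * x) = t) ∧
          ∀ x y, τ (x * y) = τ (y * x)) ∧
        ∀ (n : ℕ) (v : Matrix (Fin n) (Fin n) (Unitization ℂ A)),
          star v * v = 1 → v * star v = 1) ∨
      (∀ a : A, a ≠ 0 → (∃ y : A, a = star y * y) →
        ∃ p ∈ closure {x : A | ∃ z : A, x = a * z * a},
          p * p = p ∧ star p = p ∧
          ∃ v : A, star v * v = p ∧ v * star v * p = v * star v ∧ v * star v ≠ p) :=
  dichGT X ⟨realRankZero, almostUnperforated, order⟩ π growth classes projection outer corner simple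

end Pool.Agent.Results.MP_8be301_an.SubexponentialCrossedProducts
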