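import Pool.Agent.H.MP_8be301_an.TZ.FinT

/-!
# Real rank zero dichotomy from twisted commutators of central sequences

`CTriv β`: the automorphism `β` satisfies `β p ≲ p ≲ β p` for every projection `p` of `A` (Murray-von Neumann
subequivalence in `A`), for example because it is homotopic to the identity.

`Tw A`: there are finitely many such automorphisms `β l` and a number `C` such that for every finite set `F` and
every `ε > 0` there are contractions `x l`, `y l` that commute with the elements of `F` up to `ε` and elements
`a l`, `b l` of norm at most `C` with `‖∑ a l (x l y l - y l β l (x l)) b l - 1‖ ≤ 1 / 2`: the twisted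
commutators `x y - y β (x)` of central sequences are full in the algebra of bounded sequences modulo null
sequences. With `β = id` these are the commutators, with `y = 1` the differences `x - β (x)`.

Special cases and consequences: helper files `TZ/CorT` (full commutators; full approximately central
eigenelements, eigenvalue not 1; displaced partitions; automorphisms connected to the identity), `TZ/IdT` (the
two-sided ideal generated by the twisted commutators), `TZ/ChT` (if `Tw A` fails then the central sequence
algebra has a character fixed by all these automorphisms), `RD/Cor`.
-/

set_option autoImplicit false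

namespace Pool.Agent.Results.MP_8be301_an.TwistedCommutators

open Pool.Agent.H.MP_8be301_an.TZ

/-- A simple unital C*-algebra of real rank zero in which the twisted commutators `x y - y β (x)` of
central sequences, for automorphisms `β` with `β p ≲ p ≲ β p` for all projections `p`, are full in
the sequence algebra is stably finite or purely infinite. -/
theorem result (A : Type*) [CStarAlgebra A]
    (simple : ∀ I : TwoSidedIdeal A, IsClosed (I : Set A) → I = ⊥ ∨ I = ⊤)
    (realRankZero : ∀ x : A, IsSelfAdjoint x → ∀ ε : ℝ, 0 < ε →
      ∃ y : A, IsSelfAdjoint y ∧ (quasispectrum ℂ y).Finite ∧ ‖x - y‖ < ε)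
    (fullTwistedCommutators : Tw A) :
    (∀ (n : ℕ) (v : Matrix (Fin n) (Fin n) (Unitization ℂ A)),
        star v * v = 1 → v * star v = 1) ∨
      (∀ a : A, a ≠ 0 → (∃ y : A, a = star y * y) →
        ∃ p ∈ closure {x : A | ∃ z : A, x = a * z * a},
          p * p = p ∧ star p = p ∧
          ∃ v : A, star v * v = p ∧ v * star v * p = v * star v ∧ v * star v ≠ p) :=
  dichT simple realRankZero fullTwistedCommutators

end Pool.Agent.Results.MP_8be301_an.TwistedCommutators
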